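import Pool.Agent.Helper17.CR.Stmts2

/-!
MP_c38931_co, module SIEG: Siegel's lemma for the auxiliary polynomials.
-/

set_option autoImplicit false

namespace Pool.Agent.Helper17.CR

open Polynomial

/-! ### Polynomials with given coefficients -/

/-- the polynomial with the coefficients `u` -/
noncomputable def sieg_poly {n : ℕ} (u : Fin n → ℤ) : ℤ[X] := ∑ a : Fin n, monomial (a : ℕ) (u a)

theorem sieg_coeff {n : ℕ} (u : Fin n → ℤ) (i : ℕ) :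
    (sieg_poly u).coeff i = if h : i < n then u ⟨i, h⟩ else 0 := by
  unfold sieg_poly
  rw [finsetSum_coeff]
  simp only [coeff_monomial]
  split_ifs with h
  · rw [Finset.sum_eq_single ⟨i, h⟩]
    · simp
    · intro b _ hb
      rw [if_neg]
      intro h'
      exact hb (Fin.ext h')
    · simp
  · apply Finset.sum_eq_zero
    intro b _
    rw [if_neg]
    intro h'
    exact h (h' ▸ b.2)

theorem sieg_deg {n : ℕ} (u : Fin (n + 1) → ℤ) : (sieg_poly u).natDegree ≤ n := by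
  rw [natDegree_le_iff_coeff_eq_zero]
  intro N hN
  rw [sieg_coeff, dif_neg (by omega)]

theorem sieg_bd {n : ℕ} (u : Fin n → ℤ) (H : ℤ) (hH : 0 ≤ H) (hu : ∀ a, |u a| ≤ H) (i : ℕ) :
    |(sieg_poly u).coeff i| ≤ H := by
  rw [sieg_coeff]
  split_ifs with h
  · exact hu _
  · simpa using hH

theorem sieg_zero {n : ℕ} (u : Fin n → ℤ) (h : sieg_poly u = 0) (a : Fin n) : u a = 0 := by
  have h1 := sieg_coeff u a
  rw [h, coeff_zero, dif_pos a.2] at h1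
  exact h1.symm

/-! ### Evaluation at the square root of `-D` -/

section
variable {D : ℕ}

/-- the root -/
def sieg_t (D : ℕ) : Zsqrtd (-(D : ℤ)) := Zsqrtd.sqrtd

theorem sieg_sq : (sieg_t D) ^ 2 + (D : Zsqrtd (-(D : ℤ))) = 0 := by
  unfold sieg_t
  rw [sq, Zsqrtd.dmuld]
  push_cast
  ring

theorem sieg_dvd (q : ℤ[X]) (h : aeval (sieg_t D) q = 0) :
    (X ^ 2 + C (D : ℤ)) ∣ q := by
  have hm : (X ^ 2 + C (D : ℤ)).Monic := monic_X_pow_add_C _ (by norm_num)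
  have hg : aeval (sieg_t D) (X ^ 2 + C (D : ℤ)) = 0 := by
    rw [map_add, map_pow, aeval_X, aeval_C]
    have := sieg_sq (D := D)
    simpa using this
  rw [← modByMonic_eq_zero_iff_dvd hm]
  have hr : aeval (sieg_t D) (q %ₘ (X ^ 2 + C (D : ℤ))) = 0 := by
    have h1 := modByMonic_add_div q (X ^ 2 + C (D : ℤ))
    have h2 := congrArg (aeval (sieg_t D)) h1
    rw [map_add, map_mul, hg, zero_mul, add_zero, h] at h2
    exact h2
  have hdeg : (q %ₘ (X ^ 2 + C (D : ℤ))).natDegree ≤ 1 := by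
    have h1 := natDegree_modByMonic_lt q hm (by
      intro h2
      have h3 := congrArg natDegree h2
      rw [natDegree_X_pow_add_C] at h3
      simp at h3)
    rw [natDegree_X_pow_add_C] at h1
    omega
  rw [eq_X_add_C_of_natDegree_le_one hdeg] at hr ⊢
  generalize (q %ₘ (X ^ 2 + C (D : ℤ))).coeff 1 = b at hr ⊢
  generalize (q %ₘ (X ^ 2 + C (D : ℤ))).coeff 0 = c at hr ⊢
  rw [map_add, map_mul, aeval_X, aeval_C, aeval_C] at hr
  have h1 := congrArg Zsqrtd.re hr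
  have h2 := congrArg Zsqrtd.im hr
  simp [sieg_t] at h1 h2
  rw [h1, h2]
  simp

theorem sieg_aeval {n : ℕ} (u : Fin n → ℤ) (i : ℕ) :
    aeval (sieg_t D) (hasseDeriv i (sieg_poly u)) =
      ∑ a : Fin n, ((u a : ℤ) : Zsqrtd (-(D : ℤ))) *
        (((a : ℕ).choose i : ℕ) * (sieg_t D) ^ ((a : ℕ) - i)) := by
  unfold sieg_poly
  rw [map_sum, map_sum]
  apply Finset.sum_congr rfl
  intro a _
  rw [hasseDeriv_monomial, aeval_monomial, map_mul]
  simp only [algebraMap_int_eq, eq_intCast, Int.cast_natCast]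
  ring

/-! ### Bounds -/

/-- both coordinates are bounded by `B` -/
def sieg_b (z : Zsqrtd (-(D : ℤ))) (B : ℤ) : Prop := |z.re| ≤ B ∧ |z.im| ≤ B

theorem sieg_b_mono {z : Zsqrtd (-(D : ℤ))} {B B' : ℤ} (h : sieg_b z B) (hB : B ≤ B') :
    sieg_b z B' := ⟨h.1.trans hB, h.2.trans hB⟩

theorem sieg_b_nat {z : Zsqrtd (-(D : ℤ))} {B : ℤ} (h : sieg_b z B) (c : ℕ) :
    sieg_b ((c : Zsqrtd (-(D : ℤ))) * z) (c * B) := by
  constructor
  · have e : ((c : Zsqrtd (-(D : ℤ))) * z).re = c * z.re := by simp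
    rw [e, abs_mul, Nat.abs_cast]
    exact mul_le_mul_of_nonneg_left h.1 (Nat.cast_nonneg c)
  · have e : ((c : Zsqrtd (-(D : ℤ))) * z).im = c * z.im := by simp
    rw [e, abs_mul, Nat.abs_cast]
    exact mul_le_mul_of_nonneg_left h.2 (Nat.cast_nonneg c)

theorem sieg_b_t (hD : 1 ≤ D) {z : Zsqrtd (-(D : ℤ))} {B : ℤ} (h : sieg_b z B) :
    sieg_b (sieg_t D * z) (D * B) := by
  have hB : 0 ≤ B := (abs_nonneg _).trans h.1
  have hD' : (1 : ℤ) ≤ D := by exact_mod_cast hD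
  constructor
  · have e : (sieg_t D * z).re = -(D : ℤ) * z.im := by simp [sieg_t]
    rw [e, abs_mul, abs_neg, Nat.abs_cast]
    exact mul_le_mul_of_nonneg_left h.2 (Nat.cast_nonneg D)
  · have e : (sieg_t D * z).im = z.re := by simp [sieg_t]
    rw [e]
    nlinarith [h.1]

theorem sieg_b_pow (hD : 1 ≤ D) (m : ℕ) : sieg_b ((sieg_t D) ^ m) ((D : ℤ) ^ m) := by
  induction m with
  | zero => constructor <;> simp
  | succ m ih =>
    rw [pow_succ', pow_succ']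
    exact sieg_b_t hD ih

theorem sieg_b_term (hD : 1 ≤ D) {r a i : ℕ} (ha : a ≤ 10 * r) :
    sieg_b (((a.choose i : ℕ) : Zsqrtd (-(D : ℤ))) * (sieg_t D) ^ (a - i))
      ((2 : ℤ) ^ (10 * r) * (D : ℤ) ^ (10 * r)) := by
  have h1 := sieg_b_nat (sieg_b_pow hD (a - i)) (a.choose i)
  refine sieg_b_mono h1 ?_
  have hD' : (1 : ℤ) ≤ D := by exact_mod_cast hD
  have h2 : ((a.choose i : ℕ) : ℤ) ≤ 2 ^ (10 * r) := by
    have h3 : a.choose i ≤ 2 ^ a := Nat.choose_le_two_pow a i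
    have h4 : (2 : ℕ) ^ a ≤ 2 ^ (10 * r) := Nat.pow_le_pow_right (by norm_num) ha
    exact_mod_cast h3.trans h4
  have h5 : (D : ℤ) ^ (a - i) ≤ (D : ℤ) ^ (10 * r) := pow_le_pow_right₀ hD' (by omega)
  exact mul_le_mul h2 h5 (by positivity) (by positivity)

end

/-! ### The linear system -/

/-- unknowns -/
abbrev sieg_J (r : ℕ) : Type := Fin (10 * r + 1) ⊕ (Fin (7 * r + 1) ⊕ Fin (2 * r + 1))

/-- coefficients of the first equations -/
def sieg_K0 (D r i : ℕ) : sieg_J r → Zsqrtd (-(D : ℤ))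
  | .inl a => (((a : ℕ).choose i : ℕ) : Zsqrtd (-(D : ℤ))) * (sieg_t D) ^ ((a : ℕ) - i)
  | .inr (.inl a) => sieg_t D *
      ((((a : ℕ).choose i : ℕ) : Zsqrtd (-(D : ℤ))) * (sieg_t D) ^ ((a : ℕ) - i))
  | .inr (.inr a) => sieg_t D * (sieg_t D *
      ((((a : ℕ).choose i : ℕ) : Zsqrtd (-(D : ℤ))) * (sieg_t D) ^ ((a : ℕ) - i)))

/-- coefficients of the second equations -/
def sieg_K1 (D r i : ℕ) : sieg_J r → Zsqrtd (-(D : ℤ))
  | .inl _ => 0
  | .inr (.inl a) => (((a : ℕ).choose i : ℕ) : Zsqrtd (-(D : ℤ))) * (sieg_t D) ^ ((a : ℕ) - i)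
  | .inr (.inr a) => ((2 : ℕ) : Zsqrtd (-(D : ℤ))) * (sieg_t D *
      ((((a : ℕ).choose i : ℕ) : Zsqrtd (-(D : ℤ))) * (sieg_t D) ^ ((a : ℕ) - i)))

/-- the polynomials of a vector -/
noncomputable def sieg_P {r : ℕ} (t : sieg_J r → ℤ) : Fin 3 → ℤ[X] :=
  ![sieg_poly fun a => t (.inl a), sieg_poly fun a => t (.inr (.inl a)),
    sieg_poly fun a => t (.inr (.inr a))]

theorem sieg_eq0 (D r i : ℕ) (t : sieg_J r → ℤ) :
    aeval (sieg_t D) (hasseDeriv i (sieg_P t 0) + X * hasseDeriv i (sieg_P t 1) +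
      X ^ 2 * hasseDeriv i (sieg_P t 2)) =
      ∑ j, ((t j : ℤ) : Zsqrtd (-(D : ℤ))) * sieg_K0 D r i j := by
  rw [map_add, map_add, map_mul, map_mul, map_pow, aeval_X]
  show aeval (sieg_t D) (hasseDeriv i (sieg_poly _)) + sieg_t D *
    aeval (sieg_t D) (hasseDeriv i (sieg_poly _)) + sieg_t D ^ 2 *
    aeval (sieg_t D) (hasseDeriv i (sieg_poly _)) = _
  rw [sieg_aeval, sieg_aeval, sieg_aeval, Fintype.sum_sum_type, Fintype.sum_sum_type,
    Finset.mul_sum, Finset.mul_sum, add_assoc]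
  refine congrArg₂ _ rfl (congrArg₂ _ ?_ ?_)
  · apply Finset.sum_congr rfl
    intro a _
    show _ = _ * (sieg_t D * _)
    ring
  · apply Finset.sum_congr rfl
    intro a _
    show _ = _ * (sieg_t D * (sieg_t D * _))
    ring

theorem sieg_eq1 (D r i : ℕ) (t : sieg_J r → ℤ) :
    aeval (sieg_t D) (hasseDeriv i (sieg_P t 1) + 2 * X * hasseDeriv i (sieg_P t 2)) =
      ∑ j, ((t j : ℤ) : Zsqrtd (-(D : ℤ))) * sieg_K1 D r i j := by
  rw [map_add, map_mul, map_mul, aeval_X, map_ofNat]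
  show aeval (sieg_t D) (hasseDeriv i (sieg_poly _)) + 2 * sieg_t D *
    aeval (sieg_t D) (hasseDeriv i (sieg_poly _)) = _
  rw [sieg_aeval, sieg_aeval, Fintype.sum_sum_type, Fintype.sum_sum_type,
    Finset.mul_sum]
  have h0 : ∑ a : Fin (10 * r + 1), ((t (.inl a) : ℤ) : Zsqrtd (-(D : ℤ))) *
      sieg_K1 D r i (.inl a) = 0 := by
    apply Finset.sum_eq_zero
    intro a _
    show _ * (0 : Zsqrtd (-(D : ℤ))) = 0
    rw [mul_zero]
  rw [h0, zero_add]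
  refine congrArg₂ _ rfl ?_
  apply Finset.sum_congr rfl
  intro a _
  show _ = _ * (((2 : ℕ) : Zsqrtd (-(D : ℤ))) * (sieg_t D * _))
  push_cast
  ring

/-- rows -/
abbrev sieg_I (r : ℕ) : Type := (Fin (7 * r) ⊕ Fin (2 * r)) × Bool

/-- the matrix -/
def sieg_M (D r : ℕ) : Matrix (sieg_I r) (sieg_J r) ℤ := Matrix.of fun e j =>
  match e with
  | (.inl i, true) => (sieg_K0 D r i j).re
  | (.inl i, false) => (sieg_K0 D r i j).im
  | (.inr i, true) => (sieg_K1 D r i j).re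
  | (.inr i, false) => (sieg_K1 D r i j).im

theorem sieg_sum_eq_zero {D r : ℕ} (K : sieg_J r → Zsqrtd (-(D : ℤ))) (t : sieg_J r → ℤ)
    (h1 : ∑ j, (K j).re * t j = 0) (h2 : ∑ j, (K j).im * t j = 0) :
    ∑ j, ((t j : ℤ) : Zsqrtd (-(D : ℤ))) * K j = 0 := by
  let f : Zsqrtd (-(D : ℤ)) →+ ℤ := ⟨⟨Zsqrtd.re, rfl⟩, fun _ _ => rfl⟩
  let g : Zsqrtd (-(D : ℤ)) →+ ℤ := ⟨⟨Zsqrtd.im, rfl⟩, fun _ _ => rfl⟩
  apply Zsqrtd.ext
  · show f (∑ j, ((t j : ℤ) : Zsqrtd (-(D : ℤ))) * K j) = 0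
    rw [map_sum, ← h1]
    apply Finset.sum_congr rfl
    intro j _
    show (((t j : ℤ) : Zsqrtd (-(D : ℤ))) * K j).re = _
    rw [Zsqrtd.re_smul, mul_comm]
  · show g (∑ j, ((t j : ℤ) : Zsqrtd (-(D : ℤ))) * K j) = 0
    rw [map_sum, ← h2]
    apply Finset.sum_congr rfl
    intro j _
    show (((t j : ℤ) : Zsqrtd (-(D : ℤ))) * K j).im = _
    rw [Zsqrtd.im_smul, mul_comm]

theorem sieg_Kb {D : ℕ} (hD : 1 ≤ D) {r : ℕ} (hr : 1 ≤ r) (i : ℕ) (j : sieg_J r) :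
    sieg_b (sieg_K0 D r i j) (((2 ^ 11 * D ^ 12) ^ r : ℕ) : ℤ) ∧
    sieg_b (sieg_K1 D r i j) (((2 ^ 11 * D ^ 12) ^ r : ℕ) : ℤ) := by
  have hD' : (1 : ℤ) ≤ D := by exact_mod_cast hD
  have hD0 : (0 : ℤ) ≤ D := by positivity
  have key : (2 : ℤ) * (D * (D * ((2 : ℤ) ^ (10 * r) * (D : ℤ) ^ (10 * r)))) ≤
      (((2 ^ 11 * D ^ 12) ^ r : ℕ) : ℤ) := by
    have e1 : (2 : ℤ) * (D * (D * ((2 : ℤ) ^ (10 * r) * (D : ℤ) ^ (10 * r)))) =
        2 ^ (10 * r + 1) * (D : ℤ) ^ (10 * r + 2) := by ring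
    have e3 : (2 ^ 11 * D ^ 12) ^ r = 2 ^ (11 * r) * D ^ (12 * r) := by
      rw [mul_pow, ← pow_mul, ← pow_mul]
    have e2 : (((2 ^ 11 * D ^ 12) ^ r : ℕ) : ℤ) = 2 ^ (11 * r) * (D : ℤ) ^ (12 * r) := by
      rw [e3, Nat.cast_mul, Nat.cast_pow, Nat.cast_pow, Nat.cast_ofNat]
    rw [e1, e2]
    exact mul_le_mul (pow_le_pow_right₀ (by norm_num) (by omega))
      (pow_le_pow_right₀ hD' (by omega)) (by positivity) (by positivity)
  have hT : (0 : ℤ) ≤ (2 : ℤ) ^ (10 * r) * (D : ℤ) ^ (10 * r) := by positivity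
  have k1 : (2 : ℤ) ^ (10 * r) * (D : ℤ) ^ (10 * r) ≤
      D * ((2 : ℤ) ^ (10 * r) * (D : ℤ) ^ (10 * r)) := by nlinarith
  have k2 : D * ((2 : ℤ) ^ (10 * r) * (D : ℤ) ^ (10 * r)) ≤
      D * (D * ((2 : ℤ) ^ (10 * r) * (D : ℤ) ^ (10 * r))) := by
    exact mul_le_mul_of_nonneg_left k1 hD0
  have k3 : D * (D * ((2 : ℤ) ^ (10 * r) * (D : ℤ) ^ (10 * r))) ≤
      2 * (D * (D * ((2 : ℤ) ^ (10 * r) * (D : ℤ) ^ (10 * r)))) := by
    have : 0 ≤ D * (D * ((2 : ℤ) ^ (10 * r) * (D : ℤ) ^ (10 * r))) := by positivity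
    linarith
  have k4 : (2 : ℤ) * (D * ((2 : ℤ) ^ (10 * r) * (D : ℤ) ^ (10 * r))) ≤
      2 * (D * (D * ((2 : ℤ) ^ (10 * r) * (D : ℤ) ^ (10 * r)))) := by linarith
  match j with
  | .inl a =>
    refine ⟨sieg_b_mono (sieg_b_term (r := r) hD (by omega)) (by linarith), ?_⟩
    constructor
    · show |(0 : ℤ)| ≤ _
      rw [abs_zero]
      positivity
    · show |(0 : ℤ)| ≤ _
      rw [abs_zero]
      positivity
  | .inr (.inl a) =>
    have hb := sieg_b_term (r := r) (a := a) (i := i) hD (by omega)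
    exact ⟨sieg_b_mono (sieg_b_t hD hb) (by linarith), sieg_b_mono hb (by linarith)⟩
  | .inr (.inr a) =>
    have hb := sieg_b_term (r := r) (a := a) (i := i) hD (by omega)
    refine ⟨sieg_b_mono (sieg_b_t hD (sieg_b_t hD hb)) (by linarith), ?_⟩
    refine sieg_b_mono (sieg_b_nat (sieg_b_t hD hb) 2) ?_
    push_cast
    push_cast at key
    linarith

theorem sieg_Mb {D : ℕ} (hD : 1 ≤ D) {r : ℕ} (hr : 1 ≤ r) (e : sieg_I r) (j : sieg_J r) :
    |sieg_M D r e j| ≤ (((2 ^ 11 * D ^ 12) ^ r : ℕ) : ℤ) := by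
  match e with
  | (.inl i, true) => exact (sieg_Kb hD hr i j).1.1
  | (.inl i, false) => exact (sieg_Kb hD hr i j).1.2
  | (.inr i, true) => exact (sieg_Kb hD hr i j).2.1
  | (.inr i, false) => exact (sieg_Kb hD hr i j).2.2

theorem sieg_pow (r : ℕ) (hr : 1 ≤ r) : 19 * r + 3 ≤ 22 ^ r := by
  induction r, hr using Nat.le_induction with
  | base => norm_num
  | succ r hr ih =>
    rw [pow_succ]
    omega

attribute [local instance] Matrix.seminormedAddCommGroup in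
/-- Siegel's lemma -/
theorem sieg_main {D : ℕ} (hD : 1 ≤ D) {r : ℕ} (hr : 1 ≤ r) :
    ∃ t : sieg_J r → ℤ, t ≠ 0 ∧ (sieg_M D r).mulVec t = 0 ∧
      ∀ j, |t j| ≤ ((((22 * (2 ^ 11 * D ^ 12)) ^ 18) ^ r : ℕ) : ℤ) := by
  have hc1 : Fintype.card (sieg_I r) = 18 * r := by
    simp only [Fintype.card_prod, Fintype.card_sum, Fintype.card_fin, Fintype.card_bool]
    ring
  have hc2 : Fintype.card (sieg_J r) = 19 * r + 3 := by
    simp only [Fintype.card_sum, Fintype.card_fin]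
    ring
  obtain ⟨t, h0, h1, h2⟩ := Int.Matrix.exists_ne_zero_int_vec_norm_le (sieg_M D r)
    (by rw [hc1, hc2]; omega) (by rw [hc1]; omega)
  refine ⟨t, h0, h1, ?_⟩
  rw [hc1, hc2] at h2
  set E : ℕ := (2 ^ 11 * D ^ 12) ^ r with hE
  have hE1 : 1 ≤ E := Nat.one_le_pow _ _ (by positivity)
  have hM : max 1 ‖sieg_M D r‖ ≤ (E : ℝ) := by
    apply max_le
    · exact_mod_cast hE1
    · rw [Matrix.norm_le_iff (by positivity)]
      intro i j
      rw [Int.norm_eq_abs]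
      exact_mod_cast sieg_Mb hD hr i j
  have hbase : (((19 * r + 3 : ℕ) : ℝ) * max 1 ‖sieg_M D r‖) ≤
      (((22 * (2 ^ 11 * D ^ 12)) ^ r : ℕ) : ℝ) := by
    have h3 : ((19 * r + 3 : ℕ) : ℝ) ≤ ((22 ^ r : ℕ) : ℝ) := by exact_mod_cast sieg_pow r hr
    calc (((19 * r + 3 : ℕ) : ℝ) * max 1 ‖sieg_M D r‖) ≤ ((22 ^ r : ℕ) : ℝ) * (E : ℝ) := by
          apply mul_le_mul h3 hM (by positivity) (by positivity)
      _ = _ := by rw [hE, ← Nat.cast_mul, ← mul_pow]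
  have hbase1 : 1 ≤ (((19 * r + 3 : ℕ) : ℝ) * max 1 ‖sieg_M D r‖) := by
    have h3 : (1 : ℝ) ≤ ((19 * r + 3 : ℕ) : ℝ) := by
      push_cast
      have : (0 : ℝ) ≤ (r : ℝ) := Nat.cast_nonneg r
      linarith
    have h4 : (1 : ℝ) ≤ max 1 ‖sieg_M D r‖ := le_max_left _ _
    calc (1 : ℝ) = 1 * 1 := by ring
      _ ≤ _ := mul_le_mul h3 h4 (by norm_num) (by positivity)
  have hexp : (((18 * r : ℕ) : ℝ)) / (((19 * r + 3 : ℕ) : ℝ) - ((18 * r : ℕ) : ℝ)) ≤ (18 : ℕ) := by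
    have h5 : (0 : ℝ) ≤ (r : ℝ) := Nat.cast_nonneg r
    have h6 : ((19 * r + 3 : ℕ) : ℝ) - ((18 * r : ℕ) : ℝ) = r + 3 := by push_cast; ring
    rw [h6, div_le_iff₀ (by linarith)]
    push_cast
    linarith
  have h7 : ‖t‖ ≤ (((22 * (2 ^ 11 * D ^ 12)) ^ r : ℕ) : ℝ) ^ 18 := by
    refine h2.trans ((Real.rpow_le_rpow_of_exponent_le hbase1 hexp).trans ?_)
    rw [Real.rpow_natCast]
    exact pow_le_pow_left₀ (by linarith) hbase 18
  intro j
  have h8 : ‖t j‖ ≤ ‖t‖ := norm_le_pi_norm t j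
  have h9 := h8.trans h7
  rw [Int.norm_eq_abs] at h9
  have h10 : (((22 * (2 ^ 11 * D ^ 12)) ^ r : ℕ) : ℝ) ^ 18 =
      ((((22 * (2 ^ 11 * D ^ 12)) ^ 18) ^ r : ℕ) : ℝ) := by
    push_cast
    rw [← pow_mul, ← pow_mul, Nat.mul_comm r 18]
  rw [h10] at h9
  exact_mod_cast h9

theorem st_SIEG : ST_SIEG := by
  intro D hD
  refine ⟨(22 * (2 ^ 11 * D ^ 12)) ^ 18, Nat.one_le_pow _ _ (by positivity), ?_⟩
  intro r hr
  obtain ⟨t, h0, h1, h2⟩ := sieg_main hD hr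
  have hrow : ∀ e : sieg_I r, ∑ j, sieg_M D r e j * t j = 0 := fun e => congrFun h1 e
  refine ⟨sieg_P t, ?_, sieg_deg _, sieg_deg _, sieg_deg _, ?_, ?_, ?_⟩
  · intro hP
    apply h0
    funext j
    match j with
    | .inl a => exact sieg_zero _ (congrFun hP 0) a
    | .inr (.inl a) => exact sieg_zero _ (congrFun hP 1) a
    | .inr (.inr a) => exact sieg_zero _ (congrFun hP 2) a
  · intro b i
    have hH : (0 : ℤ) ≤ ((((22 * (2 ^ 11 * D ^ 12)) ^ 18) ^ r : ℕ) : ℤ) := by positivity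
    fin_cases b
    · exact sieg_bd _ _ hH (fun a => h2 _) i
    · exact sieg_bd _ _ hH (fun a => h2 _) i
    · exact sieg_bd _ _ hH (fun a => h2 _) i
  · intro i hi
    apply sieg_dvd
    rw [sieg_eq0]
    exact sieg_sum_eq_zero _ _ (hrow (.inl ⟨i, hi⟩, true)) (hrow (.inl ⟨i, hi⟩, false))
  · intro i hi
    apply sieg_dvd
    rw [sieg_eq1]
    exact sieg_sum_eq_zero _ _ (hrow (.inr ⟨i, hi⟩, true)) (hrow (.inr ⟨i, hi⟩, false))

end Pool.Agent.Helper17.CR
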